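import Mathlib
import Pool.Agent.Helper19.P3.Defs

/-!
# P3-10 (project PS4): from the cluster to the class

`n = t * ∏ G`, `G = clu n b W` (`i + r` primes in `[2^b e^{-W}, 2^(b+1)]`), `t` the product of the other primes.
-/

namespace Pool.Agent.Helper19.P3

open Finset Pool.Agent.Helper6.Lehmer Pool.Agent.Helper6.LehmerCount Pool.Agent.Helper58.LT
open Pool.Agent.Helper58.PS

/-- P3-10 without the hypothesis `κ ≤ b` -/
theorem toE0 {n b W θ κ i r : ℕ} (hn : Squarefree n) (hG : #(clu n b W) = i + r)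
    (hq : ∀ q ∈ n.primeFactors, q ∈ clu n b W ∨ q < 2 ^ (θ + 1))
    (hP : ∀ q ∈ n.primeFactors, q ≤ 2 ^ (b + 1)) (hθ : θ + 1 ≤ κ) (hW : 2 * W ≤ κ) (hκ : 1 ≤ κ) :
    DataE n κ i r b := by
  classical
  obtain ⟨G, hGdef⟩ : ∃ G, G = clu n b W := ⟨_, rfl⟩
  rw [← hGdef] at hG hq
  have hGsub : G ⊆ n.primeFactors := by
    rw [hGdef]
    exact filter_subset _ _
  have hsplit : n = (∏ p ∈ n.primeFactors \ G, p) * ∏ p ∈ G, p := by
    rw [Finset.prod_sdiff hGsub]
    exact (Nat.prod_primeFactors_of_squarefree hn).symm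
  refine ⟨∏ p ∈ n.primeFactors \ G, p,
    fun j => ((G.equivFin.symm (finCongr hG.symm j) : G) : ℕ), ?_, ?_, ?_, ?_⟩
  · have h1 : ∏ j : Fin (i + r), ((G.equivFin.symm (finCongr hG.symm j) : G) : ℕ) = ∏ p ∈ G, p := by
      rw [Equiv.prod_comp (finCongr hG.symm) (fun j => ((G.equivFin.symm j : G) : ℕ)),
        Equiv.prod_comp G.equivFin.symm (fun x : G => (x : ℕ))]
      exact Finset.prod_coe_sort G (fun p => p)
    rw [h1]
    exact hsplit
  · intro p hp
    have hpp := Nat.prime_of_mem_primeFactors hp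
    have hd := Nat.dvd_of_mem_primeFactors hp
    obtain ⟨q, hq1, hq2⟩ := (hpp.prime.dvd_finsetProd_iff _).1 hd
    rw [mem_sdiff] at hq1
    have hqp := Nat.prime_of_mem_primeFactors hq1.1
    have hpq : p = q := (Nat.prime_dvd_prime_iff_eq hpp hqp).1 hq2
    rw [hpq]
    rcases hq q hq1.1 with h | h
    · exact absurd h hq1.2
    · exact h.le.trans (Nat.pow_le_pow_right (by norm_num) hθ)
  · intro j
    have hmem : ((G.equivFin.symm (finCongr hG.symm j) : G) : ℕ) ∈ G :=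
      (G.equivFin.symm (finCongr hG.symm j)).2
    obtain ⟨p, hpdef⟩ : ∃ p, p = ((G.equivFin.symm (finCongr hG.symm j) : G) : ℕ) := ⟨_, rfl⟩
    rw [← hpdef] at hmem
    change ((G.equivFin.symm (finCongr hG.symm j) : G) : ℕ) ∈ PP b κ
    rw [← hpdef]
    have hpn := hGsub hmem
    have hpp := Nat.prime_of_mem_primeFactors hpn
    unfold PP
    rw [mem_filter, mem_Icc]
    refine ⟨⟨?_, ?_⟩, hpp⟩
    · rw [hGdef, clu, mem_filter] at hmem
      have h1 := hmem.2
      rcases le_total κ b with hκb | hκb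
      · have h2 : (2 : ℝ) ^ (b - κ) * 2 ^ κ = 2 ^ b := by
          rw [← pow_add]
          congr 1
          omega
        have h3 : Real.exp (W : ℝ) ≤ 2 ^ κ := by
          have h4 : Real.exp (1 : ℝ) ≤ 4 := by
            have := Real.exp_one_lt_d9
            linarith
          calc Real.exp (W : ℝ) = Real.exp 1 ^ W := by rw [← Real.exp_nat_mul, mul_one]
            _ ≤ (4 : ℝ) ^ W := pow_le_pow_left₀ (Real.exp_pos _).le h4 _
            _ = (2 : ℝ) ^ (2 * W) := by rw [pow_mul]; norm_num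
            _ ≤ 2 ^ κ := pow_le_pow_right₀ (by norm_num) hW
        have h5 : (2 : ℝ) ^ (b - κ) ≤ 2 ^ b * Real.exp (-(W : ℝ)) := by
          rw [Real.exp_neg, ← div_eq_mul_inv, le_div_iff₀ (Real.exp_pos _), ← h2]
          exact mul_le_mul_of_nonneg_left h3 (by positivity)
        exact_mod_cast h5.trans h1
      · rw [Nat.sub_eq_zero_of_le hκb, pow_zero]
        exact hpp.one_lt.le
    · exact (hP p hpn).trans (Nat.pow_le_pow_right (by norm_num) (by omega))
  · intro j j' hjj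
    have h1 := Subtype.ext hjj
    have h2 := G.equivFin.symm.injective h1
    exact (finCongr hG.symm).injective h2

/-- P3-10 -/
theorem toE {n b W θ κ i r : ℕ} (hn : Squarefree n) (hG : #(clu n b W) = i + r)
    (hq : ∀ q ∈ n.primeFactors, q ∈ clu n b W ∨ q < 2 ^ (θ + 1))
    (hP : ∀ q ∈ n.primeFactors, q ≤ 2 ^ (b + 1)) (hθ : θ + 1 ≤ κ) (hW : 2 * W ≤ κ) (hκ : 1 ≤ κ)
    (_hκb : κ ≤ b) : DataE n κ i r b :=
  toE0 hn hG hq hP hθ hW hκ

end Pool.Agent.Helper19.P3
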